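import Pool.Agent.H923R2.FP.Stubs

/-!
# The formal derivation and its analytic bound (helper368)
-/

set_option autoImplicit false

noncomputable section

namespace Pool.Agent.H923R2.FP.T_BND

open Pool.Agent.H923R2.FP

/-- append a word to all words -/
def apw {Q R : Type} (w : List (Lt Q R)) (e : Ex Q R) : Ex Q R := e.map fun p => (p.1, p.2 ++ w)

/-- put a letter in front of all words -/
def cns {Q R : Type} (z : Lt Q R) (e : Ex Q R) : Ex Q R := e.map fun p => (p.1, z :: p.2)

/-- the values of the derivation at the letters -/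
def dz {Q R : Type} (hx px : Ex Q R) : Lt Q R → Ex Q R
  | .q x => smx Complex.I (cns (.q x) hx) ++ smx (-Complex.I) (apw [.q x] hx)
  | .r _ => []
  | .s => smx (-1) px

/-- the formal derivation -/
def DD {Q R : Type} (hx px : Ex Q R) : List (Lt Q R) → Ex Q R
  | [] => []
  | z :: w => apw w (dz hx px z) ++ cns z (DD hx px w)

section eval

variable {A Q R : Type} [Ring A] [Algebra ℂ A]

theorem evx_apw (θ : Lt Q R → A) (w : List (Lt Q R)) (e : Ex Q R) :
    evx θ (apw w e) = evx θ e * ev θ w := by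
  induction e with
  | nil => simp [apw]
  | cons p e ih =>
    have : apw w (p :: e) = (p.1, p.2 ++ w) :: apw w e := rfl
    rw [this, evx_cons, evx_cons, ih, ev_append, add_mul, smul_mul_assoc]

theorem evx_cns (θ : Lt Q R → A) (z : Lt Q R) (e : Ex Q R) :
    evx θ (cns z e) = θ z * evx θ e := by
  induction e with
  | nil => simp [cns]
  | cons p e ih =>
    have : cns z (p :: e) = (p.1, z :: p.2) :: cns z e := rfl
    rw [this, evx_cons, evx_cons, ih, ev_cons, mul_add, mul_smul_comm]

theorem evx_dz (π : Q → A) (ρ : R → A) (s : A) (hx px : Ex Q R) (z : Lt Q R) :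
    evx (vl π ρ s) (dz hx px z) = dl π (evx (vl π ρ s) hx) (evx (vl π ρ s) px) z := by
  cases z with
  | q x =>
    simp only [dz, dl, evx_append, evx_smx, evx_cns, evx_apw, vl_q, ev_cons, ev_nil, mul_one]
    rw [neg_smul, smul_sub, sub_eq_add_neg]
  | r x => simp [dz, dl]
  | s =>
    simp only [dz, dl, evx_smx]
    rw [neg_smul, one_smul]

theorem evx_DD (π : Q → A) (ρ : R → A) (s : A) (hx px : Ex Q R) (w : List (Lt Q R)) :
    evx (vl π ρ s) (DD hx px w) =
      der (vl π ρ s) (dl π (evx (vl π ρ s) hx) (evx (vl π ρ s) px)) w := by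
  induction w with
  | nil => simp [DD]
  | cons z w ih =>
    simp only [DD, der_cons, evx_append, evx_apw, evx_cns, evx_dz, ih]

end eval

section weight

variable {Q R : Type} {ω : Lt Q R → ℝ}

theorem wtx_nil : wtx ω ([] : Ex Q R) = 0 := rfl

theorem wtx_cons (p : ℂ × List (Lt Q R)) (e : Ex Q R) :
    wtx ω (p :: e) = ‖p.1‖ * (p.2.map ω).prod + wtx ω e := by
  simp [wtx]

theorem wtx_append (e e' : Ex Q R) : wtx ω (e ++ e') = wtx ω e + wtx ω e' := by
  simp [wtx]

theorem wtx_smx (c : ℂ) (e : Ex Q R) : wtx ω (smx c e) = ‖c‖ * wtx ω e := by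
  induction e with
  | nil => simp [smx, wtx]
  | cons p e ih =>
    have : smx c (p :: e) = (c * p.1, p.2) :: smx c e := rfl
    rw [this, wtx_cons, wtx_cons, ih, norm_mul]
    ring

theorem wtx_apw (w : List (Lt Q R)) (e : Ex Q R) :
    wtx ω (apw w e) = wtx ω e * (w.map ω).prod := by
  induction e with
  | nil => simp [apw, wtx]
  | cons p e ih =>
    have : apw w (p :: e) = (p.1, p.2 ++ w) :: apw w e := rfl
    rw [this, wtx_cons, wtx_cons, ih, List.map_append, List.prod_append]
    ring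

theorem wtx_cns (z : Lt Q R) (e : Ex Q R) : wtx ω (cns z e) = ω z * wtx ω e := by
  induction e with
  | nil => simp [cns, wtx]
  | cons p e ih =>
    have : cns z (p :: e) = (p.1, z :: p.2) :: cns z e := rfl
    rw [this, wtx_cons, wtx_cons, ih, List.map_cons, List.prod_cons]
    ring

theorem prod_one_le (hω : ∀ z, 1 ≤ ω z) (w : List (Lt Q R)) : 1 ≤ (w.map ω).prod := by
  induction w with
  | nil => simp
  | cons z w ih =>
    rw [List.map_cons, List.prod_cons]
    nlinarith [hω z]

theorem wtx_nonneg (hω : ∀ z, 1 ≤ ω z) (e : Ex Q R) : 0 ≤ wtx ω e := by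
  induction e with
  | nil => exact le_rfl
  | cons p e ih =>
    rw [wtx_cons]
    have := mul_nonneg (norm_nonneg p.1) (zero_le_one.trans (prod_one_le hω p.2))
    linarith

theorem wtx_dz (hω : ∀ z, 1 ≤ ω z) (hx px : Ex Q R) (z : Lt Q R) :
    wtx ω (dz hx px z) ≤ (2 * wtx ω hx + wtx ω px) * ω z := by
  have h1 := wtx_nonneg hω hx
  have h2 := wtx_nonneg hω px
  have h3 := hω z
  cases z with
  | q x =>
    simp only [dz, wtx_append, wtx_smx, wtx_cns, wtx_apw, norm_neg, Complex.norm_I,
      List.map_cons, List.map_nil, List.prod_cons, List.prod_nil]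
    nlinarith
  | r x =>
    simp only [dz, wtx_nil]
    positivity
  | s =>
    simp only [dz, wtx_smx, norm_neg, norm_one]
    nlinarith

theorem wtx_DD (hω : ∀ z, 1 ≤ ω z) (hx px : Ex Q R) (w : List (Lt Q R)) :
    wtx ω (DD hx px w) ≤ (2 * wtx ω hx + wtx ω px) * w.length * (w.map ω).prod := by
  induction w with
  | nil => simp [DD, wtx_nil]
  | cons z w ih =>
    simp only [DD, wtx_append, wtx_apw, wtx_cns, List.map_cons, List.prod_cons,
      List.length_cons, Nat.cast_add, Nat.cast_one]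
    have h0 := prod_one_le hω w
    have h1 := mul_le_mul_of_nonneg_right (wtx_dz hω hx px z) (zero_le_one.trans h0)
    have h2 := mul_le_mul_of_nonneg_left ih (zero_le_one.trans (hω z))
    linarith

end weight

section len

variable {Q R : Type}

/-- all words have at most `l` letters -/
def BL (l : ℕ) (e : Ex Q R) : Prop := ∀ p ∈ e, p.2.length ≤ l

theorem BL_append {l : ℕ} {e e' : Ex Q R} (h : BL l e) (h' : BL l e') : BL l (e ++ e') := by
  intro p hp
  rcases List.mem_append.1 hp with hp | hp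
  · exact h p hp
  · exact h' p hp

theorem BL_smx {l : ℕ} {e : Ex Q R} (c : ℂ) (h : BL l e) : BL l (smx c e) := by
  intro p hp
  obtain ⟨p', hp', rfl⟩ := List.mem_map.1 hp
  exact h p' hp'

theorem BL_mono {l l' : ℕ} {e : Ex Q R} (hl : l ≤ l') (h : BL l e) : BL l' e :=
  fun p hp => (h p hp).trans hl

theorem BL_apw {l : ℕ} {e : Ex Q R} (w : List (Lt Q R)) (h : BL l e) :
    BL (l + w.length) (apw w e) := by
  intro p hp
  obtain ⟨p', hp', rfl⟩ := List.mem_map.1 hp
  have := h p' hp'
  simp only [List.length_append]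
  omega

theorem BL_cns {l : ℕ} {e : Ex Q R} (z : Lt Q R) (h : BL l e) : BL (l + 1) (cns z e) := by
  intro p hp
  obtain ⟨p', hp', rfl⟩ := List.mem_map.1 hp
  have := h p' hp'
  simp only [List.length_cons]
  omega

theorem BL_exists (e : Ex Q R) : ∃ m, BL m e := by
  induction e with
  | nil => exact ⟨0, fun p hp => absurd hp List.not_mem_nil⟩
  | cons p e ih =>
    obtain ⟨m, hm⟩ := ih
    refine ⟨max m p.2.length, fun p' hp' => ?_⟩
    rcases List.mem_cons.1 hp' with rfl | hp'
    · exact le_max_right _ _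
    · exact (hm p' hp').trans (le_max_left _ _)

theorem BL_dz {m : ℕ} {hx px : Ex Q R} (h1 : BL m hx) (h2 : BL m px) (z : Lt Q R) :
    BL (m + 1) (dz hx px z) := by
  cases z with
  | q x => exact BL_append (BL_smx _ (BL_cns _ h1)) (BL_smx _ (BL_apw [.q x] h1))
  | r x => exact fun p hp => absurd hp List.not_mem_nil
  | s => exact BL_smx _ (BL_mono (Nat.le_succ m) h2)

theorem BL_DD {m : ℕ} {hx px : Ex Q R} (h1 : BL m hx) (h2 : BL m px) (w : List (Lt Q R)) :
    BL (w.length + m) (DD hx px w) := by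
  induction w with
  | nil => exact fun p hp => absurd hp List.not_mem_nil
  | cons z w ih =>
    refine BL_append (BL_mono ?_ (BL_apw w (BL_dz h1 h2 z))) (BL_mono ?_ (BL_cns z ih))
    · simp only [List.length_cons]
      omega
    · simp only [List.length_cons]
      omega

theorem BL_lix {l m : ℕ} {D : List (Lt Q R) → Ex Q R} (hD : ∀ w, BL (w.length + m) (D w))
    {e : Ex Q R} (he : BL l e) : BL (l + m) (lix D e) := by
  intro p hp
  obtain ⟨p', hp', hp⟩ := List.mem_flatMap.1 hp
  have h1 := he p' hp'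
  have h2 := BL_smx p'.1 (hD p'.2) p hp
  omega

theorem wtx_lix {ω : Lt Q R → ℝ} (hω : ∀ z, 1 ≤ ω z) {l : ℕ} {K0 : ℝ} (hK : 0 ≤ K0)
    {D : List (Lt Q R) → Ex Q R}
    (hD : ∀ w, wtx ω (D w) ≤ K0 * w.length * (w.map ω).prod) {e : Ex Q R} (he : BL l e) :
    wtx ω (lix D e) ≤ K0 * l * wtx ω e := by
  induction e with
  | nil => simp [lix, wtx_nil]
  | cons p e ih =>
    have h0 : lix D (p :: e) = smx p.1 (D p.2) ++ lix D e := rfl
    have h1 := ih fun p' hp' => he p' (List.mem_cons_of_mem _ hp')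
    have h2 : (p.2.length : ℝ) ≤ l := by exact_mod_cast he p List.mem_cons_self
    rw [h0, wtx_append, wtx_smx, wtx_cons]
    have h3 : ‖p.1‖ * wtx ω (D p.2) ≤ ‖p.1‖ * (K0 * p.2.length * (p.2.map ω).prod) :=
      mul_le_mul_of_nonneg_left (hD p.2) (norm_nonneg _)
    have h4 : ‖p.1‖ * (K0 * p.2.length * (p.2.map ω).prod) ≤
        ‖p.1‖ * (K0 * l * (p.2.map ω).prod) := by
      apply mul_le_mul_of_nonneg_left _ (norm_nonneg _)
      apply mul_le_mul_of_nonneg_right _ (zero_le_one.trans (prod_one_le hω _))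
      exact mul_le_mul_of_nonneg_left h2 hK
    nlinarith

theorem wtx_iter {ω : Lt Q R → ℝ} (hω : ∀ z, 1 ≤ ω z) {m : ℕ} {K0 : ℝ} (hK : 0 ≤ K0)
    {D : List (Lt Q R) → Ex Q R} (hB : ∀ w, BL (w.length + m) (D w))
    (hD : ∀ w, wtx ω (D w) ≤ K0 * w.length * (w.map ω).prod) (n : ℕ) :
    ∀ (l : ℕ) (e : Ex Q R), BL l e → wtx ω ((lix D)^[n] e) ≤
      K0 ^ n * (∏ j ∈ Finset.range n, (l + j * m) : ℕ) * wtx ω e := by
  induction n with
  | zero =>
    intro l e _
    simp
  | succ n ih =>
    intro l e he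
    rw [Function.iterate_succ_apply]
    refine (ih (l + m) _ (BL_lix hB he)).trans ?_
    have h1 := wtx_lix hω hK hD he
    have h2 : (0 : ℝ) ≤ K0 ^ n * (∏ j ∈ Finset.range n, (l + m + j * m) : ℕ) := by positivity
    refine (mul_le_mul_of_nonneg_left h1 h2).trans (le_of_eq ?_)
    rw [Finset.prod_range_succ']
    have e : ∀ j, l + m + j * m = l + (j + 1) * m := fun j => by ring
    simp only [e, zero_mul, add_zero]
    push_cast
    ring

end len

theorem prod_le (l m n : ℕ) (hm : 1 ≤ m) :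
    ∏ j ∈ Finset.range n, (l + j * m) ≤ m ^ n * (n.factorial * 2 ^ (l + n)) := by
  have h1 : ∏ j ∈ Finset.range n, (l + j * m) ≤ ∏ j ∈ Finset.range n, (m * (l + j)) := by
    apply Finset.prod_le_prod'
    intro j _
    nlinarith [Nat.zero_le (l * (m - 1)), Nat.mul_le_mul_right l hm]
  have h2 : ∏ j ∈ Finset.range n, (m * (l + j)) = m ^ n * l.ascFactorial n := by
    rw [Finset.prod_mul_distrib, Finset.prod_const, Finset.card_range]
    congr 1
    clear h1
    induction n with
    | zero => simp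
    | succ n ih => rw [Finset.prod_range_succ, ih, Nat.ascFactorial_succ, mul_comm]
  have h3 : l.ascFactorial n ≤ n.factorial * 2 ^ (l + n) := by
    rcases l with _ | l
    · rcases n with _ | n
      · simp
      · rw [Nat.zero_ascFactorial]
        exact Nat.zero_le _
    · rw [Nat.ascFactorial_eq_factorial_mul_choose]
      apply Nat.mul_le_mul_left
      refine (Nat.choose_le_two_pow _ _).trans ?_
      apply Nat.pow_le_pow_right (by norm_num)
      omega
  rw [h2] at h1
  exact h1.trans (Nat.mul_le_mul_left _ h3)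

theorem t_BND : S_BND := by
  intro Q R _ _ _ _ _ _ hx px
  refine ⟨DD hx px, fun A _ π ρ s w => evx_DD π ρ s hx px w, fun ω hω => ?_⟩
  obtain ⟨m1, hm1⟩ := BL_exists hx
  obtain ⟨m2, hm2⟩ := BL_exists px
  obtain ⟨m, hm⟩ : ∃ m, m = 1 + max m1 m2 := ⟨_, rfl⟩
  have hx' : BL m hx := BL_mono (by have := le_max_left m1 m2; omega) hm1
  have px' : BL m px := BL_mono (by have := le_max_right m1 m2; omega) hm2
  obtain ⟨K0, hK0⟩ : ∃ K0, K0 = 2 * wtx ω hx + wtx ω px := ⟨_, rfl⟩
  have hK : 0 ≤ K0 := by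
    have h1 := wtx_nonneg hω hx
    have h2 := wtx_nonneg hω px
    rw [hK0]
    positivity
  refine ⟨2 * K0 * m, by positivity, fun n w => ?_⟩
  have h1 := wtx_iter hω hK (BL_DD hx' px')
    (fun w => by rw [hK0]; exact wtx_DD hω hx px w) n w.length [(1, w)]
    (fun p hp => by rw [List.mem_singleton.1 hp])
  have h2 : ((∏ j ∈ Finset.range n, (w.length + j * m) : ℕ) : ℝ) ≤
      (m ^ n * (n.factorial * 2 ^ (w.length + n)) : ℕ) := by
    exact_mod_cast prod_le w.length m n (by omega)
  have h3 : wtx ω [((1 : ℂ), w)] = (w.map ω).prod := by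
    rw [wtx_cons, wtx_nil]
    simp
  rw [h3] at h1
  have h4 := zero_le_one.trans (prod_one_le hω w)
  refine h1.trans ((mul_le_mul_of_nonneg_right (mul_le_mul_of_nonneg_left h2 (pow_nonneg hK n))
    h4).trans (le_of_eq ?_))
  push_cast
  rw [mul_pow, mul_pow, pow_add]
  ring

end Pool.Agent.H923R2.FP.T_BND
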