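import Pool.Agent.H923R2.FP.Stubs

/-!
# The absorption theorem (helper368)
-/

set_option autoImplicit false

noncomputable section

namespace Pool.Agent.H923R2.FP.T_ABS

open Pool.Agent.H923R2.FP

theorem star_cx (φ : C(unitInterval, ℝ)) : star (cx φ) = cx φ := by
  ext x
  simp [cx]

theorem t_ABS (hABS1 : S_ABS1) (hABS2 : S_ABS2) (hABS3 : S_ABS3) (hABS4 : S_ABS4)
    (hSTAGE : S_STAGE) (hTRF : S_TRF) (hLIM : S_LIM) (hPHI : S_PHI) : S_ABS := by
  intro J D _ t i0 i1 h01 c0 c1 hc0 hc1 A _ _ τ e f h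
  obtain ⟨φ, _, hφi, hφm⟩ := hPHI
  have hsys := hABS1 J D t i0 A τ e f h φ hφm
  have hgen := hABS3 J D t i0 A τ e f h φ hφi
  have hss : star (f (cx φ)) = f (cx φ) := by rw [← map_star, star_cx]
  obtain ⟨σ, hσ1, hσ2⟩ := hLIM A (D i0) (RR e i0) τ (e i0) (RR e i0).subtype (f (cx φ)) h.fts
    hss hgen (fun π' s' hlaw hs' hgen' => by
      have htr := hTRF A (D i0) (RR e i0) τ (e i0) π' (RR e i0).subtype (f (cx φ)) s' h.fts
        hlaw hs'
      refine hSTAGE A (D i0) (RR e i0) τ π' (RR e i0).subtype s' h.fts (htr.1 hsys) hgen' ?_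
      intro p
      obtain ⟨u, a, X, hG⟩ := hABS2 J D t i0 i1 h01 c0 c1 hc0 hc1 A τ e f h p
      exact ⟨u, a, X, htr.2 u a X p hG⟩)
  exact hABS4 J D t i0 A τ e f (f (cx φ)) h hsys σ hσ1 hσ2

end Pool.Agent.H923R2.FP.T_ABS
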